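import Pool.Agent.helper82.SW.SpecW

/-!
# Project sp, stage W, module PVT: pivotal sets
-/

namespace Pool.Agent.helper82.SW

open MeasureTheory Filter Topology TopologicalSpace
open scoped BoundedContinuousFunction

theorem PVT_piv (F : Set ((ℤ × ℤ) → Bool)) (b : (ℤ × ℤ) → Bool) (v : ℤ × ℤ) :
    b ∈ DP.Piv {v} F ↔ ¬ (Function.update b v (!b v) ∈ F ↔ b ∈ F) := by
  constructor
  · rintro ⟨b', b'', h, h1, h2⟩
    have key : ∀ c : (ℤ × ℤ) → Bool, (∀ w, w ∉ ({v} : Set (ℤ × ℤ)) → c w = b w) →
        c = b ∨ c = Function.update b v (!b v) := by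
      intro c hc
      by_cases hcv : c v = b v
      · left
        funext w
        by_cases hw : w = v
        · rw [hw]; exact hcv
        · exact hc w hw
      · right
        funext w
        by_cases hw : w = v
        · rw [hw, Function.update_self]
          cases hx : c v <;> cases hy : b v <;> simp_all
        · rw [Function.update_of_ne hw]
          exact hc w hw
    have k1 := key b' (fun w hw => (h w hw).1)
    have k2 := key b'' (fun w hw => (h w hw).2)
    intro hiff
    rcases k1 with k1 | k1 <;> rcases k2 with k2 | k2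
    · rw [k2, ← k1] at h2; exact h2 h1
    · rw [k2] at h2; rw [k1] at h1; exact h2 (hiff.mpr h1)
    · rw [k2] at h2; rw [k1] at h1; exact h2 (hiff.mp h1)
    · rw [k2, ← k1] at h2; exact h2 h1
  · intro h
    by_cases hb : b ∈ F
    · have h2 : Function.update b v (!b v) ∉ F := fun h3 => h ⟨fun _ => hb, fun _ => h3⟩
      refine ⟨b, Function.update b v (!b v), ?_, hb, h2⟩
      intro w hw
      exact ⟨rfl, Function.update_of_ne hw _ _⟩
    · have h2 : Function.update b v (!b v) ∈ F := by
        by_contra h3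
        exact h ⟨fun h4 => absurd h4 h3, fun h4 => absurd h4 hb⟩
      refine ⟨Function.update b v (!b v), b, ?_, h2, hb⟩
      intro w hw
      exact ⟨Function.update_of_ne hw _ _, rfl⟩

theorem PVT_f (n : ℕ) (ω ω' : SpectralPivotal.Config n) :
    SpectralPivotal.f n ω ≠ SpectralPivotal.f n ω' ↔
      ¬ (SpectralPivotal.Crossing n ω ↔ SpectralPivotal.Crossing n ω') := by
  unfold SpectralPivotal.f
  by_cases h1 : SpectralPivotal.Crossing n ω <;> by_cases h2 : SpectralPivotal.Crossing n ω'
  · simp [h1, h2]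
  · simp only [h1, h2, if_true, if_false]
    norm_num
  · simp only [h1, h2, if_true, if_false]
    norm_num
  · simp [h1, h2]

theorem PVT_cfg (hinj : Function.Injective sh) (n : ℕ) (b : ℤ × ℤ → Bool)
    (x : SpectralPivotal.sites n) :
    Function.update (cfg n b) x (-(cfg n b) x) =
      cfg n (Function.update b (sh x) (!b (sh x))) := by
  funext y
  by_cases hy : y = x
  · subst hy
    rw [Function.update_self]
    unfold cfg
    rw [Function.update_self]
    cases b (sh y) <;> simp
  · rw [Function.update_of_ne hy]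
    unfold cfg
    have : sh (y : ℤ × ℤ) ≠ sh x := fun h => hy (Subtype.ext (hinj h))
    rw [Function.update_of_ne this]

theorem PVT (hCR : CR_stmt) (hAD : AD_stmt) : PVT_stmt := by
  intro i b
  have hinj : Function.Injective sh := hAD.2.2.2.2.2
  have key : ∀ x : SpectralPivotal.sites (2 ^ i),
      x ∈ SpectralPivotal.pivotal (2 ^ i) (cfg (2 ^ i) b) ↔ b ∈ DP.Piv {sh x} (TP.Fc i) := by
    intro x
    unfold SpectralPivotal.pivotal
    rw [Finset.mem_filter, PVT_f, PVT_cfg hinj, hCR, hCR, PVT_piv]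
    simp
  ext w
  constructor
  · rintro ⟨x, hx, rfl⟩
    rw [Finset.mem_coe] at hx
    refine ⟨?_, (key x).mp hx⟩
    exact (hAD.2.2.2.2.1 i _).mpr ⟨x, (hAD.2.1 (2 ^ i) x).mp x.2, rfl⟩
  · rintro ⟨h1, h2⟩
    obtain ⟨v, hv, rfl⟩ := (hAD.2.2.2.2.1 i _).mp h1
    have hv' : v ∈ SpectralPivotal.sites (2 ^ i) := (hAD.2.1 (2 ^ i) v).mpr hv
    refine ⟨⟨v, hv'⟩, ?_, rfl⟩
    rw [Finset.mem_coe]
    exact (key ⟨v, hv'⟩).mpr h2

end Pool.Agent.helper82.SW
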